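import Mathlib
import Pool.Agent.H482.WT.Psi
import Pool.Agent.H482.WT.Prod
import Pool.Agent.H482.WT.Prm
import Pool.Agent.H482.WT.Prd
import Pool.Agent.H482.WT.UniD

/-!
# Few composite integers have no small prime witness

At most `exp (C u log (u + 1))` composite `n ≤ x` have no prime witness up to `y`, where
`u = log x / log y` and `C` is an absolute constant; hence at most `C log log X` composite `n ≤ X` have
no prime witness up to `n ^ δ`, for each fixed `δ > 0`.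
-/

set_option autoImplicit false

namespace Pool.Agent.Results.MP_0b15c0_nt.FewWithoutPrimeWitness

open Real

open Pool.Agent.H482.WT
open Pool.Agent.H379R2.W (Passes)

/-- `b` is a witness for `n`: `n` fails the strong test for the base `b` -/
def IsWitness (n b : ℕ) : Prop :=
  ∀ j d : ℕ, n - 1 = 2 ^ j * d → Odd d →
    (b : ZMod n) ^ d ≠ 1 ∧ ∀ i : ℕ, i < j → (b : ZMod n) ^ (2 ^ i * d) ≠ -1

/-- composite integers -/
def IsComposite (n : ℕ) : Prop := 2 ≤ n ∧ ¬ n.Prime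

theorem passes_of {n b : ℕ} (h : ¬ IsWitness n b) : Passes n b := by
  by_contra hcon
  apply h
  intro j d h1 h2
  exact ⟨fun h3 => hcon ⟨j, d, h1, h2, Or.inl h3⟩,
    fun i hi h3 => hcon ⟨j, d, h1, h2, Or.inr ⟨i, hi, h3⟩⟩⟩

theorem ncard_le {S : Set ℕ} {X : ℕ} (hS : ∀ n ∈ S, n ≤ X) {B : ℝ}
    (h : ∀ W : Finset ℕ, (∀ n ∈ W, n ∈ S) → (W.card : ℝ) ≤ B) : (S.ncard : ℝ) ≤ B := by
  have hf : S.Finite := (Set.finite_Iic X).subset hS
  rw [Set.ncard_eq_toFinset_card _ hf]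
  exact h _ fun n hn => (Set.Finite.mem_toFinset hf).1 hn

/-- Few composite integers have no small prime witness. -/
theorem result :
    (∃ C : ℝ, 0 < C ∧ ∀ x y : ℕ, 2 ≤ y → y ≤ x →
      ({n : ℕ | IsComposite n ∧ n ≤ x ∧
        ∀ p : ℕ, p.Prime → p ≤ y → ¬ IsWitness n p}.ncard : ℝ) ≤
          exp (C * (log x / log y) * log (log x / log y + 1))) ∧
    (∀ δ : ℝ, 0 < δ → ∃ C : ℝ, 0 < C ∧ ∀ X : ℕ, 16 ≤ X →
      ({n : ℕ | IsComposite n ∧ n ≤ X ∧
        ∀ p : ℕ, p.Prime → (p : ℝ) ≤ (n : ℝ) ^ δ → ¬ IsWitness n p}.ncard : ℝ) ≤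
          C * log (log X)) := by
  constructor
  · obtain ⟨C, hC, h⟩ := uniP psi prod prm prd
    refine ⟨C, hC, fun x y hy hyx => ?_⟩
    apply ncard_le (X := x)
    · rintro n ⟨-, h, -⟩
      exact h
    · intro W hW
      refine h x y hy hyx W ?_
      intro n hn
      obtain ⟨⟨a1, a2⟩, a3, a4⟩ := hW n hn
      exact ⟨a1, a3, a2, fun b hb hby => passes_of (a4 b hb hby)⟩
  · intro δ hδ
    obtain ⟨C, hC, h⟩ := llogP psi prod prm prd δ hδ
    refine ⟨C, hC, fun X hX => ?_⟩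
    apply ncard_le (X := X)
    · rintro n ⟨-, h, -⟩
      exact h
    · intro W hW
      refine h X hX W ?_
      intro n hn
      obtain ⟨⟨a1, a2⟩, a3, a4⟩ := hW n hn
      exact ⟨a3, a1, a2, fun b hb hby => passes_of (a4 b hb hby)⟩

end Pool.Agent.Results.MP_0b15c0_nt.FewWithoutPrimeWitness
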