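import Mathlib
import Pool.Agent.H482.WT.Psi
import Pool.Agent.H482.WT.Prod
import Pool.Agent.H482.WT.Tot
import Pool.Agent.H482.WT.Gau
import Pool.Agent.H482.WT.Tup
import Pool.Agent.H482.WT.Rep
import Pool.Agent.H482.WT.Prm
import Pool.Agent.H482.WT.Prd
import Pool.Agent.H482.WT.Rab
import Pool.Agent.H482.WT.Dua
import Pool.Agent.H482.WT.Up

/-!
# Strong witnesses in a prescribed set of primes

Let `u = log x / log y`, and let `P` be any set of primes in `(y ^ θ, y]`, where a prime `p` has the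
weight `1 / p`.  Up to an arbitrarily small constant `η`:
(1) for every `n ≤ x` the weight of the nonwitnesses in `P` is at most `exp (C u log (u + 1))` times
the expected one;
(2) all but at most `exp (C u log (u + 1))` composite `n ≤ x` have witnesses in `P` of at least half of
the weight of `P`;
(3) the weight of the witnesses in `P` is the expected one for each `n ≤ x` which is not divisible by
one of at most `exp (C u log (u + 1))` integers.
-/

set_option autoImplicit false

namespace Pool.Agent.Results.MP_0b15c0_nt.PrescribedPrimeBases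

open Real

open Pool.Agent.H482.WT
open Pool.Agent.H379R2.W (Passes)

/-- `b` is a witness for `n`: `n` fails the strong test for the base `b` -/
def IsWitness (n b : ℕ) : Prop :=
  ∀ j d : ℕ, n - 1 = 2 ^ j * d → Odd d →
    (b : ZMod n) ^ d ≠ 1 ∧ ∀ i : ℕ, i < j → (b : ZMod n) ^ (2 ^ i * d) ≠ -1

/-- composite integers -/
def IsComposite (n : ℕ) : Prop := 2 ≤ n ∧ ¬ n.Prime

/-- the weight of a finite set: the sum of the reciprocals -/
noncomputable def weight (P : Finset ℕ) : ℝ := ∑ p ∈ P, 1 / (p : ℝ)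

open Classical in
/-- the witnesses for `n` in `P` -/
noncomputable def witnesses (P : Finset ℕ) (n : ℕ) : Finset ℕ := P.filter (fun b => IsWitness n b)

open Classical in
/-- the number of the nonwitnesses `0 ≤ b < n` -/
noncomputable def nonwitnesses (n : ℕ) : ℕ :=
  ((Finset.range n).filter (fun b => ¬ IsWitness n b)).card

/-- `exp (C u log (u + 1))` with `u = log x / log y` -/
noncomputable def bound (C : ℝ) (x y : ℕ) : ℝ :=
  exp (C * (log x / log y) * log (log x / log y + 1))

theorem witness_iff (n b : ℕ) : IsWitness n b ↔ ¬ Passes n b := by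
  unfold IsWitness Passes
  constructor
  · rintro h ⟨j, d, h1, h2, h3⟩
    obtain ⟨h4, h5⟩ := h j d h1 h2
    rcases h3 with h3 | ⟨i, hi, h3⟩
    · exact h4 h3
    · exact h5 i hi h3
  · intro h j d h1 h2
    refine ⟨fun h3 => h ⟨j, d, h1, h2, Or.inl h3⟩, fun i hi h3 => h ⟨j, d, h1, h2, Or.inr ⟨i, hi, h3⟩⟩⟩

theorem not_witness_iff (n b : ℕ) : ¬ IsWitness n b ↔ Passes n b := by
  rw [witness_iff, not_not]

theorem nonwitnesses_eq (n : ℕ) : nonwitnesses n = pcn n := by
  classical
  unfold nonwitnesses pcn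
  refine congrArg Finset.card ?_
  ext b
  rw [Finset.mem_filter, Finset.mem_filter, not_witness_iff]

theorem weight_witnesses (P : Finset ℕ) (n : ℕ) : weight (witnesses P n) = wt P - pw P n := by
  classical
  unfold weight witnesses pw wt
  have h1 : P.filter (fun b => IsWitness n b) = P.filter (fun b => ¬ Passes n b) := by
    apply Finset.filter_congr
    intro b _
    exact witness_iff n b
  have h2 := Finset.sum_filter_add_sum_filter_not P (fun b => Passes n b) (fun b => 1 / (b : ℝ))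
  rw [h1]
  linarith

theorem ncard_le {S : Set ℕ} {X : ℕ} (hS : ∀ n ∈ S, n ≤ X) {B : ℝ}
    (h : ∀ W : Finset ℕ, (∀ n ∈ W, n ∈ S) → (W.card : ℝ) ≤ B) : (S.ncard : ℝ) ≤ B := by
  have hf : S.Finite := (Set.finite_Iic X).subset hS
  rw [Set.ncard_eq_toFinset_card _ hf]
  exact h _ fun n hn => (Set.Finite.mem_toFinset hf).1 hn

/-- Strong witnesses in a prescribed set of primes. -/
theorem result (θ η : ℝ) (hθ : 0 < θ) (hη : 0 < η) : ∃ C : ℝ, 0 < C ∧
    ∀ x y : ℕ, 2 ≤ y → y ≤ x →
      ∀ P : Finset ℕ, (∀ p ∈ P, p.Prime ∧ (y : ℝ) ^ θ < p ∧ p ≤ y) →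
        (∀ n : ℕ, 2 ≤ n → n ≤ x →
          (1 - bound C x y * ((nonwitnesses n : ℝ) / (Nat.totient n : ℝ))) * weight P - η ≤
            weight (witnesses P n)) ∧
        ({n : ℕ | IsComposite n ∧ n ≤ x ∧
          weight (witnesses P n) < weight P / 2 - η}.ncard : ℝ) ≤ bound C x y ∧
        ∃ F : Finset ℕ, (F.card : ℝ) ≤ bound C x y ∧ (∀ f ∈ F, 2 ≤ f) ∧
          ∀ n : ℕ, 2 ≤ n → n ≤ x → (∀ f ∈ F, ¬ f ∣ n) →
            |weight (witnesses P n) -
              (1 - (nonwitnesses n : ℝ) / (Nat.totient n : ℝ)) * weight P| ≤ η ∧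
            (IsComposite n → Odd n → n ≠ 9 → 3 / 4 * weight P - η ≤ weight (witnesses P n)) := by
  have hM : S_MOM := mom (lsr tot gau) tup rep
  obtain ⟨C0, hC0, h0⟩ := upU hM dua θ η hθ hη
  obtain ⟨C1, hC1, h1⟩ := partTwoU hM psi prod prm prd θ (η / 2) hθ (by positivity)
  obtain ⟨C2, hC2, h2⟩ := partOneU hM θ η hθ hη
  refine ⟨max C0 (max C1 C2), lt_max_of_lt_left hC0, fun x y hy hyx P hP => ?_⟩
  have m0 : BD C0 x y ≤ BD (max C0 (max C1 C2)) x y := BD_mono (le_max_left _ _) hy hyx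
  have m1 : BD C1 x y ≤ BD (max C0 (max C1 C2)) x y :=
    BD_mono ((le_max_left _ _).trans (le_max_right _ _)) hy hyx
  have m2 : BD C2 x y ≤ BD (max C0 (max C1 C2)) x y :=
    BD_mono ((le_max_right _ _).trans (le_max_right _ _)) hy hyx
  have hPP : P ⊆ PR ⌊(y : ℝ) ^ θ⌋₊ y := by
    intro p hp
    obtain ⟨hp1, hp2, hp3⟩ := hP p hp
    unfold PR
    rw [Finset.mem_filter, Finset.mem_Ioc]
    refine ⟨⟨?_, hp3⟩, hp1⟩
    rw [Nat.floor_lt (by positivity)]
    exact hp2
  have hwt : weight P = wt P := rfl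
  have hwt0 := wt_nonneg P
  have hbd : bound (max C0 (max C1 C2)) x y = BD (max C0 (max C1 C2)) x y := rfl
  refine ⟨?_, ?_, ?_⟩
  · intro n hn hnx
    have h3 := h0 x y hy hyx P hPP n hn hnx
    rw [weight_witnesses, hwt, nonwitnesses_eq, hbd]
    have h4 : 0 ≤ (pcn n : ℝ) / (Nat.totient n : ℝ) := by positivity
    have h5 := mul_le_mul_of_nonneg_right (mul_le_mul_of_nonneg_right m0 h4) hwt0
    linarith
  · apply ncard_le (X := x)
    · rintro n ⟨-, h, -⟩
      exact h
    · intro W hW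
      refine (h1 x y hy hyx P hPP W ?_).trans m1
      intro n hn
      obtain ⟨⟨a1, a2⟩, a3, a4⟩ := hW n hn
      refine ⟨a1, a3, a2, ?_⟩
      rw [weight_witnesses, hwt] at a4
      linarith
  · obtain ⟨F, hF1, hF2, hF3⟩ := h2 x y hy hyx P hPP
    refine ⟨F, hF1.trans m2, hF2, fun n hn hnx hnF => ?_⟩
    have h3 := hF3 n hn hnx hnF
    rw [weight_witnesses, hwt, nonwitnesses_eq]
    constructor
    · have e : wt P - pw P n - (1 - (pcn n : ℝ) / (Nat.totient n : ℝ)) * wt P =
          -(pw P n - (pcn n : ℝ) / (Nat.totient n : ℝ) * wt P) := by ring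
      rw [e, abs_neg]
      exact h3
    · rintro ⟨-, hnp⟩ ho h9
      have hn3 : 3 ≤ n := by
        rcases (by omega : n = 2 ∨ 3 ≤ n) with h | h
        · exact absurd (h ▸ Nat.prime_two) hnp
        · exact h
      have h4 : 4 * pcn n ≤ Nat.totient n := rabin rma rmk n hn3 ho hnp h9
      have h5 : (4 : ℝ) * pcn n ≤ Nat.totient n := by exact_mod_cast h4
      have h6 : (0 : ℝ) < Nat.totient n := by exact_mod_cast Nat.totient_pos.2 (by omega)
      have h7 : (pcn n : ℝ) / (Nat.totient n : ℝ) ≤ 1 / 4 := by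
        rw [div_le_iff₀ h6]
        linarith
      have h8 := (abs_le.1 h3).2
      have h9 : (pcn n : ℝ) / (Nat.totient n : ℝ) * wt P ≤ 1 / 4 * wt P :=
        mul_le_mul_of_nonneg_right h7 (wt_nonneg P)
      linarith

end Pool.Agent.Results.MP_0b15c0_nt.PrescribedPrimeBases
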