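import Pool.Agent.H563.TW.Thin
import Pool.Graph.R_seed8.Results.MP_0b15c0_nt.ProportionOfPrimeWitnesses

/-!
# The strong pseudoprimality test with `O(log n)` bases from a fixed thin set of primes

Let `a ≥ 2`. There is one fixed set `B` of primes with at most `C y ^ (1 / a)` elements up to `y` such that for
every `A ≥ a` and `ε > 0` all but `O(x ^ (1 / A + ε))` of the composite numbers `n ≤ x` have at least
`(log n) ^ (A / a)` witnesses `b ∈ B` with `b ≤ 2 (log n) ^ A`. For `A = a` these bases `b ∈ B` are `O(log n)` in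
number, and a positive proportion of them are witnesses; `A = a = 2` is the range of the question, where `B` has
at most `C √y` elements up to `y`.
-/

set_option autoImplicit false

namespace Pool.Agent.Results.MP_0b15c0_nt.ThinSetOfBases

open Finset Filter
open Pool.Agent.H563.TW (PB mem_PB thin)

/-- `n` fails the strong test for the base `b`: writing `n - 1 = 2 ^ j * d` with `d` odd, neither
`b ^ d = 1` nor `b ^ (2 ^ i * d) = -1` for some `i < j`, modulo `n`. -/
def IsWitness (n b : ℕ) : Prop :=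
  ∀ j d : ℕ, n - 1 = 2 ^ j * d → Odd d →
    (b : ZMod n) ^ d ≠ 1 ∧ ∀ i : ℕ, i < j → (b : ZMod n) ^ (2 ^ i * d) ≠ -1

/-- the witnesses for `n` in `B` up to `2 (log n) ^ A` -/
def Witnesses (B : Set ℕ) (A : ℝ) (n : ℕ) : Set ℕ :=
  {b : ℕ | b ∈ B ∧ (b : ℝ) ≤ 2 * Real.log n ^ A ∧ IsWitness n b}

/-- the composite numbers `n ≤ x` with fewer than `(log n) ^ κ` witnesses in `B` up to `2 (log n) ^ A` -/
def Exceptions (B : Set ℕ) (A κ : ℝ) (x : ℕ) : Set ℕ :=
  {n : ℕ | n ≤ x ∧ 2 ≤ n ∧ ¬ n.Prime ∧ ((Witnesses B A n).ncard : ℝ) < Real.log n ^ κ}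

/-- Let `a ≥ 2`. There is a set `B` of primes with at most `C y ^ (1 / a)` elements up to `y` such that for all
`A ≥ a` and `ε > 0` all but `K x ^ (1 / A + ε)` of the composite `n ≤ x` have at least `(log n) ^ (A / a)`
witnesses `b ∈ B`, `b ≤ 2 (log n) ^ A`. -/
theorem result (a : ℝ) (ha : 2 ≤ a) :
    ∃ (B : Set ℕ) (C : ℝ), (∀ b ∈ B, b.Prime) ∧
      (∀ y : ℕ, 1 ≤ y → ({b | b ∈ B ∧ b ≤ y}.ncard : ℝ) ≤ C * (y : ℝ) ^ (1 / a)) ∧
      ∀ A ε : ℝ, a ≤ A → 0 < ε → ∃ K : ℝ, ∀ x : ℕ, 1 ≤ x →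
        (Exceptions B A (A / a) x).Finite ∧
          ((Exceptions B A (A / a) x).ncard : ℝ) ≤ K * (x : ℝ) ^ (1 / A + ε) := by
  classical
  obtain ⟨C, T₀, hC, hthin⟩ := thin a (by linarith) (1 / 4) (by norm_num) (by norm_num)
  obtain ⟨B, hB1, hB2, hB3⟩ := hthin IsWitness
  refine ⟨B, C, hB1, hB2, ?_⟩
  intro A ε hA hε
  have ha0 : 0 < a := by linarith
  have hA0 : 0 < A := by linarith
  obtain ⟨K, hK⟩ := (Pool.Agent.Results.MP_0b15c0_nt.ProportionOfPrimeWitnesses.result 1 le_rfl A (1 / 4) ε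
    (by linarith) (by norm_num) hε).1
  -- large `n`
  have ev : ∀ᶠ n : ℕ in atTop, (max (T₀ : ℝ) 1 + 1) ≤ Real.log n := by
    have := Real.tendsto_log_atTop.comp (tendsto_natCast_atTop_atTop (R := ℝ))
    exact this.eventually_ge_atTop _
  obtain ⟨n₀, hn₀⟩ := eventually_atTop.1 ev
  have hfin : ∀ x : ℕ, (Exceptions B A (A / a) x).Finite := by
    intro x
    apply Set.Finite.subset (Set.finite_Iic x)
    rintro n ⟨h, _⟩
    exact h
  have hsub : ∀ x : ℕ, Exceptions B A (A / a) x ⊆ ((range n₀ : Finset ℕ) : Set ℕ) ∪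
      Pool.Agent.Results.MP_0b15c0_nt.ProportionOfPrimeWitnesses.Exceptions (1 - 1 / 2 ^ 1 - 1 / 4)
        (fun n => Pool.Agent.Results.MP_0b15c0_nt.ProportionOfPrimeWitnesses.PrimesUpTo (2 * (Real.log n) ^ A)) x := by
    rintro x n ⟨hnx, hn2, hnp, hw⟩
    by_cases hn : n < n₀
    · left
      rw [mem_coe, mem_range]
      exact hn
    right
    refine ⟨hnx, hn2, hnp, ?_⟩
    by_contra hcon
    rw [not_lt] at hcon
    have hl := hn₀ n (by omega)
    have hl1 : 1 ≤ Real.log n := by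
      have := le_max_right (T₀ : ℝ) 1
      linarith
    have hlT : (T₀ : ℝ) + 1 ≤ Real.log n := by
      have := le_max_left (T₀ : ℝ) 1
      linarith
    obtain ⟨Y, hY⟩ : ∃ Y : ℝ, Y = 2 * Real.log n ^ A := ⟨_, rfl⟩
    obtain ⟨T, hT⟩ : ∃ T : ℕ, T = ⌊Y⌋₊ := ⟨_, rfl⟩
    have hlA : Real.log n ≤ Real.log n ^ A := by
      calc Real.log n = Real.log n ^ (1 : ℝ) := (Real.rpow_one _).symm
        _ ≤ Real.log n ^ A := Real.rpow_le_rpow_of_exponent_le hl1 (by linarith)
    have hY0 : 0 ≤ Y := by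
      rw [hY]
      positivity
    have hTY : Y - 1 < T := by
      rw [hT]
      exact Nat.sub_one_lt_floor Y
    have hTle : (T : ℝ) ≤ Y := by
      rw [hT]
      exact Nat.floor_le hY0
    have hTlog : Real.log n ^ A ≤ T := by
      have : 1 ≤ Real.log n ^ A := hl1.trans hlA
      linarith
    have h1 := hB3 n T (by
      have : (T₀ : ℝ) ≤ T := by linarith
      exact_mod_cast this) (by
      calc Real.log n = (Real.log n ^ a) ^ (1 / a) := by
            rw [← Real.rpow_mul (by linarith), mul_one_div_cancel ha0.ne', Real.rpow_one]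
        _ ≤ (T : ℝ) ^ (1 / a) := by
            apply Real.rpow_le_rpow (by positivity) _ (by positivity)
            exact (Real.rpow_le_rpow_of_exponent_le hl1 hA).trans hTlog) (by
      have e1 : ((PB 0 T : Finset ℕ) : Set ℕ) =
          Pool.Agent.Results.MP_0b15c0_nt.ProportionOfPrimeWitnesses.PrimesUpTo (2 * (Real.log n) ^ A) := by
        ext p
        rw [mem_coe, mem_PB]
        constructor
        · rintro ⟨⟨_, h⟩, hp⟩
          refine ⟨hp, ?_⟩
          rw [← hY]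
          have : (p : ℝ) ≤ T := by exact_mod_cast h
          linarith
        · rintro ⟨hp, h⟩
          refine ⟨⟨hp.pos, ?_⟩, hp⟩
          rw [hT]
          apply Nat.le_floor
          rw [hY]
          exact h
      have e2 : ((PB 0 T).card : ℝ) =
          ((Pool.Agent.Results.MP_0b15c0_nt.ProportionOfPrimeWitnesses.PrimesUpTo
            (2 * (Real.log n) ^ A)).ncard : ℝ) := by
        rw [← e1, Set.ncard_coe_finset]
      have e3 : {b | b ∈ PB 0 T ∧ IsWitness n b} = {b : ℕ | b ∈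
          Pool.Agent.Results.MP_0b15c0_nt.ProportionOfPrimeWitnesses.PrimesUpTo (2 * (Real.log n) ^ A) ∧
          Pool.Agent.Results.MP_0b15c0_nt.ProportionOfPrimeWitnesses.IsWitness n b} := by
        ext b
        simp only [Set.mem_ofPred_eq]
        rw [← e1, mem_coe]
        exact Iff.rfl
      rw [e2, e3]
      refine le_trans (le_of_eq ?_) hcon
      norm_num)
    have h2 : Real.log n ^ (A / a) ≤ (T : ℝ) ^ (1 / a) := by
      rw [div_eq_mul_one_div A a, Real.rpow_mul (by linarith)]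
      exact Real.rpow_le_rpow (by positivity) hTlog (by positivity)
    have h3 : {b | b ∈ B ∧ b ≤ T ∧ IsWitness n b} ⊆ Witnesses B A n := by
      rintro b ⟨hb1, hb2, hb3⟩
      refine ⟨hb1, ?_, hb3⟩
      rw [← hY]
      have : (b : ℝ) ≤ T := by exact_mod_cast hb2
      linarith
    have h4 : {b | b ∈ B ∧ b ≤ T ∧ IsWitness n b}.ncard ≤ (Witnesses B A n).ncard := by
      refine Set.ncard_le_ncard h3 (Set.Finite.subset (Set.finite_Iic ⌊2 * Real.log n ^ A⌋₊) ?_)
      rintro b ⟨_, hb, _⟩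
      exact Nat.le_floor hb
    have h5 : ({b | b ∈ B ∧ b ≤ T ∧ IsWitness n b}.ncard : ℝ) ≤ ((Witnesses B A n).ncard : ℝ) := by
      exact_mod_cast h4
    linarith
  refine ⟨K + n₀, ?_⟩
  intro x hx
  refine ⟨hfin x, ?_⟩
  obtain ⟨hf, hc⟩ := hK x hx
  have hx1 : (1 : ℝ) ≤ x := by exact_mod_cast hx
  have h1 : (Exceptions B A (A / a) x).ncard ≤ n₀ +
      (Pool.Agent.Results.MP_0b15c0_nt.ProportionOfPrimeWitnesses.Exceptions (1 - 1 / 2 ^ 1 - 1 / 4)
        (fun n => Pool.Agent.Results.MP_0b15c0_nt.ProportionOfPrimeWitnesses.PrimesUpTo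
          (2 * (Real.log n) ^ A)) x).ncard := by
    refine (Set.ncard_le_ncard (hsub x) ((Finset.finite_toSet _).union hf)).trans ?_
    refine (Set.ncard_union_le _ _).trans ?_
    rw [Set.ncard_coe_finset, card_range]
  have h2 : ((Exceptions B A (A / a) x).ncard : ℝ) ≤ n₀ +
      ((Pool.Agent.Results.MP_0b15c0_nt.ProportionOfPrimeWitnesses.Exceptions (1 - 1 / 2 ^ 1 - 1 / 4)
        (fun n => Pool.Agent.Results.MP_0b15c0_nt.ProportionOfPrimeWitnesses.PrimesUpTo
          (2 * (Real.log n) ^ A)) x).ncard : ℝ) := by exact_mod_cast h1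
  have h3 : max (1 - 1 / ((1 : ℕ) : ℝ)) (1 / A) = 1 / A := by
    apply max_eq_right
    push_cast
    have : 0 < 1 / A := by positivity
    linarith
  rw [h3] at hc
  have h4 : (1 : ℝ) ≤ (x : ℝ) ^ (1 / A + ε) := Real.one_le_rpow hx1 (by positivity)
  have h5 : (0 : ℝ) ≤ n₀ := by positivity
  have h6 : (n₀ : ℝ) ≤ n₀ * (x : ℝ) ^ (1 / A + ε) := by nlinarith
  linarith

end Pool.Agent.Results.MP_0b15c0_nt.ThinSetOfBases
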